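import Mathlib

namespace Pool.Agent.Results.MP_adfebc_an.Holds

open Set Function
open scoped RealInnerProductSpace

/-- Euclidean space `ℝᵈ`. -/
abbrev E (d : ℕ) := EuclideanSpace ℝ (Fin d)

/-- The optimal Lipschitz constant. -/
noncomputable def Lip {n m : ℕ} (f : E n → E m) : ℝ :=
  sInf {L : ℝ | 0 ≤ L ∧ ∀ x y, ‖f x - f y‖ ≤ L * ‖x - y‖}

/-- The stretch set. -/
def stretch {n m : ℕ} (f : E n → E m) : Set (E n × E n) :=
  {p | ‖f p.1 - f p.2‖ = Lip f * ‖p.1 - p.2‖}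

theorem cover {P F : Type*} [PseudoMetricSpace P] [NormedAddCommGroup F] [NormedSpace ℝ F]
    [FiniteDimensional ℝ F] (R : F → P → Prop) (K : ℝ) (hK : 0 ≤ K)
    (h : ∀ a p b q, R a p → R b q → dist a b ≤ K * dist p q) :
    ∃ ψ : P → F, (∃ K, LipschitzWith K ψ) ∧ ∀ a p, R a p → ψ p = a := by
  classical
  let g : P → F := fun p => if hp : ∃ a, R a p then hp.choose else 0
  have hg : ∀ a p, R a p → g p = a := fun a p hp => by
    have h1 : ∃ a, R a p := ⟨a, hp⟩
    have := h _ _ _ _ h1.choose_spec hp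
    rw [dist_self, mul_zero, dist_le_zero] at this
    simp only [g, dif_pos h1, this]
  have hl : LipschitzOnWith ⟨K, hK⟩ g {p | ∃ a, R a p} :=
    LipschitzOnWith.of_dist_le_mul fun p ⟨a, ha⟩ q ⟨b, hb⟩ => by
      rw [hg a p ha, hg b q hb]; exact h _ _ _ _ ha hb
  obtain ⟨ψ, h1, h2⟩ := hl.extend_finite_dimension
  exact ⟨ψ, ⟨_, h1⟩, fun a p hp => by rw [← h2 ⟨a, hp⟩, hg a p hp]⟩

theorem mid {F : Type*} [NormedAddCommGroup F] [InnerProductSpace ℝ F] (A C v : F) (a b : ℝ)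
    (hv : ‖v‖ = 1) (h1 : ‖C - A‖ ≤ a) (h2 : ‖A + (a + b) • v - C‖ ≤ b) : C = A + a • v := by
  have a0 : 0 ≤ a := (norm_nonneg _).trans h1
  have e1 : ⟪v, v⟫ = (1 : ℝ) := by rw [real_inner_self_eq_norm_sq, hv]; norm_num
  have e2 : ⟪A + (a + b) • v - C, v⟫ ≤ b := (real_inner_le_norm _ _).trans (by rw [hv]; linarith)
  have e3 : A + (a + b) • v - C = (a + b) • v - (C - A) := by abel
  rw [e3, inner_sub_left, real_inner_smul_left, e1] at e2
  have e4 : ‖(C - A) - a • v‖ ^ 2 ≤ 0 := by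
    rw [norm_sub_sq_real, real_inner_smul_right, norm_smul, hv, Real.norm_eq_abs, abs_of_nonneg a0]
    nlinarith [norm_nonneg (C - A)]
  have := norm_eq_zero.1 (pow_eq_zero_iff two_ne_zero |>.1 (le_antisymm e4 (sq_nonneg _)))
  rw [sub_sub, sub_eq_zero] at this
  exact this

theorem seg {X F : Type*} [NormedAddCommGroup X] [NormedSpace ℝ X] [NormedAddCommGroup F]
    [InnerProductSpace ℝ F] (g : X → F) (hg : ∀ x y, ‖g x - g y‖ ≤ ‖x - y‖) (z u : X) (s t : ℝ)
    (hu : ‖u‖ = 1) (hs : 0 < s) (ht : 0 < t) (h : ‖g (z - s • u) - g (z + t • u)‖ = s + t) :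
    ∃ v : F, ‖v‖ = 1 ∧ ∀ r, -s ≤ r → r ≤ t → g (z + r • u) = g (z - s • u) + (s + r) • v := by
  have hst : 0 < s + t := by linarith
  have hv : ‖(s + t)⁻¹ • (g (z + t • u) - g (z - s • u))‖ = 1 := by
    rw [norm_smul, norm_sub_rev, h, Real.norm_eq_abs, abs_of_pos (inv_pos.2 hst),
      inv_mul_cancel₀ hst.ne']
  refine ⟨_, hv, fun r h1 h2 => mid _ _ _ _ (t - r) hv ?_ ?_⟩
  · refine (hg _ _).trans (le_of_eq ?_)
    rw [show z + r • u - (z - s • u) = (s + r) • u by module, norm_smul, hu, mul_one,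
      Real.norm_eq_abs, abs_of_nonneg (by linarith)]
  · rw [show s + r + (t - r) = s + t by ring, smul_smul, mul_inv_cancel₀ hst.ne', one_smul,
      add_sub_cancel]
    refine (hg _ _).trans (le_of_eq ?_)
    rw [show z + t • u - (z + r • u) = (t - r) • u by module, norm_smul, hu, mul_one,
      Real.norm_eq_abs, abs_of_nonneg (by linarith)]

theorem four {X F : Type*} [NormedAddCommGroup X] [InnerProductSpace ℝ X] [NormedAddCommGroup F]
    [InnerProductSpace ℝ F] (a u u' : X) (v v' p q : F) (δ : ℝ) (hδ : 0 < δ) (hu : ‖u‖ = 1)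
    (hu' : ‖u'‖ = 1) (hv : ‖v‖ = 1) (hv' : ‖v'‖ = 1) (h1 : ‖p‖ ≤ ‖a + δ • (u + u')‖)
    (h2 : ‖q‖ ≤ ‖a - δ • (u + u')‖) (h3 : p - q = (2 * δ) • (v + v')) :
    δ * ‖u - u'‖ ≤ ‖a‖ + δ * ‖v - v'‖ := by
  have e1 := parallelogram_law_with_norm ℝ a (δ • (u + u'))
  have e2 := parallelogram_law_with_norm ℝ p q
  have e3 := parallelogram_law_with_norm ℝ u u'
  have e4 := parallelogram_law_with_norm ℝ v v'
  rw [h3, norm_smul, Real.norm_eq_abs, abs_of_pos (by positivity)] at e2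
  rw [norm_smul, Real.norm_eq_abs, abs_of_pos hδ] at e1
  rw [hu, hu'] at e3
  rw [hv, hv'] at e4
  have k1 := mul_self_le_mul_self (norm_nonneg _) h1
  have k2 := mul_self_le_mul_self (norm_nonneg _) h2
  have k3 := mul_self_nonneg ‖p + q‖
  refine abs_le_of_sq_le_sq' ?_ (by positivity) |>.2
  have k4 : 0 ≤ ‖a‖ * (δ * ‖v - v'‖) := by positivity
  have k5 : δ ^ 2 * (‖u + u'‖ * ‖u + u'‖) = δ ^ 2 * (4 - ‖u - u'‖ * ‖u - u'‖) := by
    congr 1; linarith
  have k6 : δ ^ 2 * (‖v + v'‖ * ‖v + v'‖) = δ ^ 2 * (4 - ‖v - v'‖ * ‖v - v'‖) := by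
    congr 1; linarith
  nlinarith

theorem piece {n m : ℕ} (g : E n → E m) (hg : ∀ x y, ‖g x - g y‖ ≤ ‖x - y‖) (i : Fin n) (c δ : ℝ)
    (hδ : 0 < δ) : ∃ ψ : E n × E m → E n × E n, (∃ K, LipschitzWith K ψ) ∧
      ∀ (z u : E n) (s t : ℝ), ‖u‖ = 1 → z i = c → δ ≤ s → s ≤ δ⁻¹ → δ ≤ t → t ≤ δ⁻¹ →
        ‖g (z - s • u) - g (z + t • u)‖ = s + t → (z - s • u, z + t • u) ∈ range ψ := by
  obtain ⟨ψ, h1, h2⟩ := cover (P := E n × E m) (F := E n × E n) (fun a p => ∃ (z u : E n) (s t : ℝ),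
    ‖u‖ = 1 ∧ z i = c ∧ δ ≤ s ∧ s ≤ δ⁻¹ ∧ δ ≤ t ∧ t ≤ δ⁻¹ ∧
      ‖g (z - s • u) - g (z + t • u)‖ = s + t ∧ a = (z - s • u, z + t • u) ∧
      p = (z + s • EuclideanSpace.single i 1, g (z + t • u) - g z)) (3 + δ⁻¹ * (δ⁻¹ * 4))
    (by positivity) (by
      rintro _ _ _ _ ⟨z, u, s, t, hu, hz, s1, s2, t1, t2, h, rfl, rfl⟩
        ⟨z', u', s', t', hu', hz', s1', s2', t1', t2', h', rfl, rfl⟩
      obtain ⟨v, hv, e⟩ := seg g hg z u s t hu (by linarith) (by linarith) h
      obtain ⟨v', hv', e'⟩ := seg g hg z' u' s' t' hu' (by linarith) (by linarith) h'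
      have w : g (z + t • u) - g z = t • v := by
        have := e 0 (by linarith) (by linarith)
        rw [zero_smul, add_zero] at this
        rw [e t (by linarith) le_rfl, this]; module
      have w' : g (z' + t' • u') - g z' = t' • v' := by
        have := e' 0 (by linarith) (by linarith)
        rw [zero_smul, add_zero] at this
        rw [e' t' (by linarith) le_rfl, this]; module
      rw [w, w']
      set D := dist (z + s • EuclideanSpace.single i (1 : ℝ), t • v)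
        (z' + s' • EuclideanSpace.single i (1 : ℝ), t' • v') with hD
      have d1 : ‖z + s • EuclideanSpace.single i (1 : ℝ) - (z' + s' • EuclideanSpace.single i 1)‖ ≤ D := by
        rw [← dist_eq_norm]; exact le_max_left _ _
      have d2 : ‖t • v - t' • v'‖ ≤ D := by rw [← dist_eq_norm]; exact le_max_right _ _
      have b1 : |s - s'| ≤ D := by
        have := (PiLp.norm_apply_le (z + s • EuclideanSpace.single i (1 : ℝ) -
          (z' + s' • EuclideanSpace.single i 1)) i).trans d1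
        simpa [hz, hz'] using this
      have b2 : ‖z' - z‖ ≤ 2 * D := by
        have := norm_sub_le ((s - s') • EuclideanSpace.single i (1 : ℝ))
          (z + s • EuclideanSpace.single i (1 : ℝ) - (z' + s' • EuclideanSpace.single i 1))
        rw [show (s - s') • EuclideanSpace.single i (1 : ℝ) - (z + s • EuclideanSpace.single i (1 : ℝ) -
          (z' + s' • EuclideanSpace.single i 1)) = z' - z by module, norm_smul] at this
        simp only [Real.norm_eq_abs, EuclideanSpace.norm_single, abs_one, mul_one] at this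
        linarith
      have b3 : |t - t'| ≤ D := by
        have := (abs_norm_sub_norm_le (t • v) (t' • v')).trans d2
        rwa [norm_smul, norm_smul, hv, hv', mul_one, mul_one, Real.norm_eq_abs, Real.norm_eq_abs,
          abs_of_pos (by linarith : 0 < t), abs_of_pos (by linarith : 0 < t')] at this
      have b4 : δ * ‖v - v'‖ ≤ 2 * D := by
        have := norm_sub_le (t • v - t' • v') ((t - t') • v')
        rw [show t • v - t' • v' - (t - t') • v' = t • (v - v') by module, norm_smul, norm_smul, hv',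
          Real.norm_eq_abs, Real.norm_eq_abs, abs_of_pos (by linarith : 0 < t)] at this
        nlinarith [norm_nonneg (v - v')]
      have b5 := four (z' - z) u u' v v' (g (z' + δ • u') - g (z + (-δ) • u))
        (g (z' + (-δ) • u') - g (z + δ • u)) δ hδ hu hu' hv hv'
        ((hg _ _).trans (le_of_eq (by congr 1; module)))
        ((hg _ _).trans (le_of_eq (by congr 1; module)))
        (by rw [e δ (by linarith) t1, e (-δ) (by linarith) (by linarith), e' δ (by linarith) t1',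
          e' (-δ) (by linarith) (by linarith)]; module)
      have b6 : ‖u - u'‖ ≤ δ⁻¹ * 4 * D := by
        rw [mul_assoc, le_inv_mul_iff₀ hδ]; linarith
      have b7 : ∀ r r' : ℝ, 0 ≤ r → r ≤ δ⁻¹ → |r - r'| ≤ D →
          ‖r • u - r' • u'‖ ≤ D + δ⁻¹ * (δ⁻¹ * 4 * D) := fun r r' h0 h1 h2 => by
        have := norm_add_le (r • (u - u')) ((r - r') • u')
        rw [show r • (u - u') + (r - r') • u' = r • u - r' • u' by module, norm_smul, norm_smul, hu',
          Real.norm_eq_abs, Real.norm_eq_abs, abs_of_nonneg h0] at this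
        have := mul_le_mul h1 b6 (norm_nonneg _) (inv_pos.2 hδ).le
        linarith
      have c1 := b7 s s' (by linarith) s2 b1
      have c2 := b7 t t' (by linarith) t2 b3
      rw [Prod.dist_eq, max_le_iff, dist_eq_norm, dist_eq_norm]
      have k1 := norm_add_le (z' - z) (s • u - s' • u')
      have k2 := norm_sub_le (t • u - t' • u') (z' - z)
      rw [show z' - z + (s • u - s' • u') = z' - s' • u' - (z - s • u) by abel, norm_sub_rev] at k1
      rw [show t • u - t' • u' - (z' - z) = z + t • u - (z' + t' • u') by abel] at k2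
      constructor <;> dsimp only <;> linarith)
  exact ⟨ψ, h1, fun z u s t a b c d e f h => ⟨_, h2 _ _ ⟨z, u, s, t, a, b, c, d, e, f, h, rfl, rfl⟩⟩⟩

theorem result (n m : ℕ) (f : E n → E m) (hf : ∃ K, LipschitzWith K f) (hc : ¬∃ c, ∀ x, f x = c) :
    ∃ ψ : ℕ → E (n + m) → E n × E n, (∀ i, ∃ K, LipschitzWith K (ψ i)) ∧
      stretch f ⊆ ⋃ i, range (ψ i) := by
  obtain ⟨K, hK⟩ := hf
  have ne : {L : ℝ | 0 ≤ L ∧ ∀ x y, ‖f x - f y‖ ≤ L * ‖x - y‖}.Nonempty :=
    ⟨K, K.2, fun x y => by simpa [dist_eq_norm] using hK.dist_le_mul x y⟩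
  have hL : ∀ x y, ‖f x - f y‖ ≤ Lip f * ‖x - y‖ := fun x y => by
    rcases eq_or_ne x y with rfl | h
    · simp
    · rw [← div_le_iff₀ (norm_pos_iff.2 (sub_ne_zero.2 h))]
      exact le_csInf ne fun L hL => (div_le_iff₀ (norm_pos_iff.2 (sub_ne_zero.2 h))).2 (hL.2 x y)
  have L0 : 0 < Lip f := by
    by_contra h
    refine hc ⟨f 0, fun x => ?_⟩
    have := (hL x 0).trans (mul_nonpos_of_nonpos_of_nonneg (not_lt.1 h) (norm_nonneg _))
    exact sub_eq_zero.1 (norm_le_zero_iff.1 this)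
  set g : E n → E m := fun x => (Lip f)⁻¹ • f x with hgd
  have gn : ∀ x y, ‖g x - g y‖ = (Lip f)⁻¹ * ‖f x - f y‖ := fun x y => by
    rw [hgd, ← smul_sub, norm_smul, Real.norm_eq_abs, abs_of_pos (inv_pos.2 L0)]
  have hg : ∀ x y, ‖g x - g y‖ ≤ ‖x - y‖ := fun x y => by
    rw [gn, inv_mul_le_iff₀ L0]; exact hL x y
  choose ψ h1 h2 using fun j : Fin n × ℚ × ℕ => piece g hg j.1 j.2.1 (1 / ((j.2.2 : ℝ) + 1))
    (by positivity)
  let T : E (n + m) ≃L[ℝ] E n × E m := ContinuousLinearEquiv.ofFinrankEq (by simp)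
  let Ψ : Option (Fin n × ℚ × ℕ) → E n × E m → E n × E n := fun o =>
    o.elim (fun p => (p.1, p.1)) ψ
  have hΨ : ∀ o, ∃ K, LipschitzWith K (Ψ o) := fun o => by
    cases o with
    | none => exact ⟨_, LipschitzWith.prod_fst.prodMk LipschitzWith.prod_fst⟩
    | some j => exact h1 j
  obtain ⟨e, he⟩ := exists_surjective_nat (Option (Fin n × ℚ × ℕ))
  refine ⟨fun k => Ψ (e k) ∘ T, fun k => ?_, ?_⟩
  · obtain ⟨K, hK⟩ := hΨ (e k)
    exact ⟨_, hK.comp T.lipschitz⟩
  · rintro ⟨x, y⟩ hxy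
    suffices h : ∃ o, (x, y) ∈ range (Ψ o) by
      obtain ⟨o, ho⟩ := h
      obtain ⟨k, rfl⟩ := he o
      exact mem_iUnion.2 ⟨k, by rwa [T.surjective.range_comp]⟩
    rcases eq_or_ne x y with rfl | hne
    · exact ⟨none, (x, 0), rfl⟩
    have d0 : 0 < ‖y - x‖ := norm_pos_iff.2 (sub_ne_zero.2 hne.symm)
    obtain ⟨i, hi⟩ : ∃ i, x i ≠ y i := by
      by_contra h
      push Not at h
      exact hne (PiLp.ext h)
    obtain ⟨c, r, r0, r1, hr⟩ : ∃ (c : ℚ) (r : ℝ), 0 < r ∧ r < 1 ∧ x i + r * (y i - x i) = c := by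
      rcases hi.lt_or_gt with h | h
      · obtain ⟨c, c1, c2⟩ := exists_rat_btwn h
        have : 0 < y i - x i := by linarith
        exact ⟨c, (c - x i) / (y i - x i), div_pos (by linarith) this,
          (div_lt_one this).2 (by linarith), by field_simp; ring⟩
      · obtain ⟨c, c1, c2⟩ := exists_rat_btwn h
        have : 0 < x i - y i := by linarith
        exact ⟨c, (x i - c) / (x i - y i), div_pos (by linarith) this,
          (div_lt_one this).2 (by linarith), by field_simp; ring⟩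
    have s0 : 0 < r * ‖y - x‖ := by positivity
    have t0 : 0 < (1 - r) * ‖y - x‖ := mul_pos (by linarith) d0
    obtain ⟨k1, hk1⟩ := exists_nat_one_div_lt (lt_min s0 t0)
    obtain ⟨k2, hk2⟩ := exists_nat_ge ‖y - x‖
    have q1 : 1 / (((k1 + k2 : ℕ) : ℝ) + 1) ≤ 1 / ((k1 : ℝ) + 1) :=
      one_div_le_one_div_of_le (by positivity) (by push_cast; linarith [k2.cast_nonneg (α := ℝ)])
    have q2 : ‖y - x‖ ≤ (1 / (((k1 + k2 : ℕ) : ℝ) + 1))⁻¹ := by
      rw [one_div, inv_inv]; push_cast; linarith [k1.cast_nonneg (α := ℝ)]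
    have ex : x + r • (y - x) - (r * ‖y - x‖) • ‖y - x‖⁻¹ • (y - x) = x := by
      rw [smul_smul, mul_assoc, mul_inv_cancel₀ d0.ne', mul_one, add_sub_cancel_right]
    have ey : x + r • (y - x) + ((1 - r) * ‖y - x‖) • ‖y - x‖⁻¹ • (y - x) = y := by
      rw [smul_smul, mul_assoc, mul_inv_cancel₀ d0.ne']; module
    have := h2 (i, c, k1 + k2) (x + r • (y - x)) (‖y - x‖⁻¹ • (y - x)) (r * ‖y - x‖)
      ((1 - r) * ‖y - x‖) (norm_smul_inv_norm (sub_ne_zero.2 hne.symm)) (by simpa using hr)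
      (by linarith [min_le_left (r * ‖y - x‖) ((1 - r) * ‖y - x‖)]) (by nlinarith)
      (by linarith [min_le_right (r * ‖y - x‖) ((1 - r) * ‖y - x‖)]) (by nlinarith) (by
        rw [ex, ey, gn, show ‖f x - f y‖ = Lip f * ‖x - y‖ from hxy, inv_mul_cancel_left₀ L0.ne',
          norm_sub_rev]; ring)
    rw [ex, ey] at this
    exact ⟨some (i, c, k1 + k2), this⟩

end Pool.Agent.Results.MP_adfebc_an.Holds
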